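import Mathlib

/-!
# MP_36d07e_lc: definitions and targets (board vt_modules)

A properly very tardy c.e. set which is not automorphic to any complete set.
-/

namespace VT

open Nat.Partrec (Code)
open Nat.Partrec.Code Encodable Denumerable

/-! ## The notions of the problem -/

/-- `A` is computably enumerable. -/
def CE (A : Set ℕ) : Prop := REPred (fun x => x ∈ A)

/-- `x` is in the stage `s` approximation of the c.e. set with index `c`. -/
def Wst (c : Code) (s x : ℕ) : Prop := (evaln s c x).isSome = true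

instance (c : Code) (s x : ℕ) : Decidable (Wst c s x) := by unfold Wst; infer_instance

/-- The c.e. set with index `c`. -/
def W (c : Code) : Set ℕ := {x | ∃ s, Wst c s x}

/-- The stage `s` approximation of the `n`-c.e. presentation with indices `l`
(`n` is the length of `l`). -/
def presSt : List Code → ℕ → ℕ → Prop
  | [], _, _ => False
  | [c], s, x => Wst c s x
  | c :: d :: l, s, x => (Wst c s x ∧ ¬ Wst d s x) ∨ presSt l s x

/-- The set with the `n`-c.e. presentation `l`: `(W c1 - W c2) ∪ (W c3 - W c4) ∪ ...`. -/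
def presSet : List Code → Set ℕ
  | [] => ∅
  | [c] => W c
  | c :: d :: l => (W c \ W d) ∪ presSet l

/-- `E` is a computable enumeration of `A` (by finite sets, given as lists). -/
structure IsEnum (A : Set ℕ) (E : ℕ → List ℕ) : Prop where
  comp : Computable E
  mono : ∀ s t x, s ≤ t → x ∈ E s → x ∈ E t
  mem : ∀ x, x ∈ A ↔ ∃ s, x ∈ E s

/-- almost prompt sets -/
def AlmostPrompt (A : Set ℕ) : Prop :=
  ∃ E : ℕ → List ℕ, IsEnum A E ∧ ∃ p : ℕ → ℕ, Computable p ∧ Monotone p ∧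
    ∀ l : List Code, l ≠ [] → presSet l = Aᶜ → ∃ x s, presSt l s x ∧ x ∈ E (p s)

/-- very tardy sets -/
def VeryTardy (A : Set ℕ) : Prop := CE A ∧ ¬ AlmostPrompt A

/-- `n`-tardy sets -/
def Tardy (n : ℕ) (A : Set ℕ) : Prop :=
  ∃ E : ℕ → List ℕ, IsEnum A E ∧ ∀ p : ℕ → ℕ, Computable p → Monotone p →
    ∃ l : List Code, l.length = n ∧ presSet l = Aᶜ ∧ ∀ x s, presSt l s x → x ∉ E (p s)

/-- properly very tardy sets -/
def ProperlyVeryTardy (A : Set ℕ) : Prop := VeryTardy A ∧ ∀ n, ¬ Tardy n A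

/-- The lattice of c.e. sets (ordered by inclusion). -/
abbrev CESet : Type := {A : Set ℕ // CE A}

/-- The characteristic function of `A`. -/
noncomputable def chi (A : Set ℕ) : ℕ →. ℕ := fun n =>
  haveI := Classical.propDecidable (n ∈ A)
  Part.some (if n ∈ A then 1 else 0)

/-- The halting set. -/
def K : Set ℕ := {n | (eval (ofNat Code n) n).Dom}

/-- `A` is (Turing) complete. -/
def IsComplete (A : Set ℕ) : Prop := TuringEquivalent (chi A) (chi K)

/-- The final theorem. -/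
def TARGET_MAIN : Prop :=
  ∃ A : CESet, ProperlyVeryTardy A.1 ∧ ∀ Φ : CESet ≃o CESet, ¬ IsComplete (Φ A).1

/-! ## The invariant property -/

/-- Weak version of the notion of a major subset. -/
def WM (U C A : Set ℕ) : Prop :=
  ∀ T, CE T → U \ C ⊆ T → ∃ Z, CE Z ∧ Z ∩ A = ∅ ∧ U \ A ⊆ T ∪ Z

/-- Version of the Harrington-Soare property inside the universe `U`. -/
def PairQ (U A : Set ℕ) (Vs : Set (Set ℕ)) : Prop :=
  ∃ C, CE C ∧ A ⊆ C ∧ C ⊆ U ∧ WM U C A ∧
    ∀ B, CE B → B ⊆ C → ∃ D, CE D ∧ D ⊆ C ∧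
      ∀ S S', CE S → CE S' → S ∪ S' = C → S ∩ S' = ∅ → B ∩ (S \ A) = D ∩ (S \ A) →
        ∃ V ∈ Vs, ∃ T, CE T ∧ U \ C ⊆ T ∧ A ∩ S ∩ T ∩ V = B ∩ S ∩ T ∩ V

/-- The infinitary property. -/
def InfQ (A : Set ℕ) : Prop :=
  ∃ R : ℕ → Set ℕ, (∀ n, CE (R n) ∧ CE (R n)ᶜ) ∧ (∀ x, ∃! n, x ∈ R n) ∧
    PairQ Set.univ A {V | ∃ n, V = {x | ∀ m ≤ n, x ∉ R m}} ∧
    ∀ m, ∃ k, ∃ Uc : ℕ → Set ℕ, Uc 0 = R m ∧ Uc k = A ∩ R m ∧
      (∀ i ≤ k, CE (Uc i)) ∧ ∀ i < k, PairQ (Uc i) (Uc (i + 1)) {Set.univ}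

/-! ## Complete sets are almost prompt -/

/-- ORC: relative computability through c.e. sets of axioms. -/
def TARGET_ORC : Prop := ∀ (A : Set ℕ) (f : ℕ →. ℕ), Nat.RecursiveIn {chi A} f →
  ∃ G : ℕ → ℕ → List ℕ → List ℕ → Prop,
    REPred (fun q : ℕ × ℕ × List ℕ × List ℕ => G q.1 q.2.1 q.2.2.1 q.2.2.2) ∧
    ∀ n v, v ∈ f n ↔ ∃ P N, G n v P N ∧ (∀ x ∈ P, x ∈ A) ∧ (∀ x ∈ N, x ∉ A)

/-- PRO: complete sets are almost prompt. -/
def TARGET_PRO : Prop := ∀ A : Set ℕ, CE A → IsComplete A → AlmostPrompt A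

/-! ## Automorphisms -/

/-- PERM: automorphisms come from permutations. -/
def TARGET_PERM : Prop := ∀ Φ : CESet ≃o CESet, ∃ φ : ℕ ≃ ℕ,
  (∀ A : CESet, (Φ A).1 = φ '' A.1) ∧ ∀ S : Set ℕ, CE S ↔ CE (φ '' S)

/-- INV: the property is invariant. -/
def TARGET_INV : Prop := ∀ φ : ℕ ≃ ℕ, (∀ S : Set ℕ, CE S ↔ CE (φ '' S)) →
  ∀ A, InfQ A → InfQ (φ '' A)

/-! ## BLUE: the property implies very tardy -/

section blue

/-- number of the index `e` of the requirement `i` -/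
def bn (i : ℕ) : ℕ := i.unpair.1
/-- the index `e` of the requirement `i` -/
def be (i : ℕ) : Code := ofNat Code i.unpair.1
/-- the index `P` of the requirement `i` -/
def bP (i : ℕ) : Code := ofNat Code i.unpair.2.unpair.1
/-- the index `Z` of the requirement `i` -/
def bZ (i : ℕ) : Code := ofNat Code i.unpair.2.unpair.2.unpair.1
/-- the index of the region of the requirement `i` -/
def bv (i : ℕ) : Code := ofNat Code i.unpair.2.unpair.2.unpair.2.unpair.1
/-- the index of the complement of the region of the requirement `i` -/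
def bv' (i : ℕ) : Code := ofNat Code i.unpair.2.unpair.2.unpair.2.unpair.2

/-- stage approximation of `(P - W e) ∪ Z` -/
def Xs (i t x : ℕ) : Prop := (Wst (bP i) t x ∧ ¬ Wst (be i) t x) ∨ Wst (bZ i) t x

/-- `(P - W e) ∪ Z` -/
def XS (i : ℕ) : Set ℕ := (W (bP i) \ W (be i)) ∪ W (bZ i)

variable (cU cC : Code) (E : ℕ → List ℕ) (p : ℕ → ℕ) (a : ℕ → ℕ → ℕ)

/-- the hypothesis of requirement `i` looks right at `y` at stage `t` -/
def psi (i y t : ℕ) : Prop :=
  (Wst (bv i) t y ↔ ¬ Wst (bv' i) t y) ∧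
  (Wst (bv i) t y → (Wst cU t y → ¬ Wst cC t y → Xs i t y) ∧
    (a t y = bn i + 1 → (Xs i t y ↔ y ∉ E t)))

/-- the maximal length of agreement up to stage `s` is larger than `x` -/
def BBig (i s x : ℕ) : Prop := ∃ t ≤ s, x < t ∧ ∀ y ≤ x, psi cU cC E a i y t

/-- stage approximation of the set `T'` of requirement `i` -/
def Tp (i s x : ℕ) : Prop :=
  ∃ t ≤ s, Wst cU t x ∧ ¬ Wst cC t x ∧ Wst (bv i) t x ∧ Xs i t x ∧ BBig cU cC E a i t x

/-- requirement `i` is won at stage `s` -/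
def won (i s : ℕ) : Prop :=
  ∃ t ≤ s, ∃ x < s, a s x = bn i + 1 ∧ Wst (bv i) s x ∧ Xs i t x ∧ x ∈ E (p t)

/-- requirement `i` wants `x` at stage `s` -/
def bcond (i s x : ℕ) : Prop := Tp cU cC E a i s x ∧ ¬ won E p a i s

open Classical in
/-- the value given to `x` when it enters `C` -/
noncomputable def bpick (s x : ℕ) : ℕ :=
  if h : ∃ i, i < x ∧ bcond cU cC E p a i s x then bn (Nat.find h) + 1 else 1

/-- `a` is the run of the splitting construction: `a s x = 0` if `x` is not in `C` at stage `s`,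
and `a s x = n + 1` if `x` is in the `n`-th piece. -/
def BRun : Prop := (∀ x, a 0 x = 0) ∧ ∀ s x, a (s + 1) x =
  if Wst cC s x then a s x else if Wst cC (s + 1) x then bpick cU cC E p a s x else 0

/-- BC: the splitting construction is computable. -/
def TARGET_BC : Prop := ∀ (cU cC : Code) (E : ℕ → List ℕ) (p : ℕ → ℕ), Computable E →
  Computable p → ∃ a : ℕ → ℕ → ℕ, Computable₂ a ∧ BRun cU cC E p a

/-- the piece number `n` -/
def Sp (a : ℕ → ℕ → ℕ) (n : ℕ) : Set ℕ := {x | ∃ s, a s x = n + 1}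

/-- the hypothesis of requirement `i` -/
def HYP (A : Set ℕ) (i : ℕ) : Prop :=
  (W (bv i))ᶜ = W (bv' i) ∧
  (∀ y, y ∈ W cU → y ∈ W (bv i) → y ∉ W cC → y ∈ XS i) ∧
  (∀ y, y ∈ W (bv i) → y ∈ Sp a (bn i) → (y ∈ XS i ↔ y ∉ A))

/-- requirement `i` is never won -/
def NW (i : ℕ) : Prop :=
  ∀ x, x ∈ W (bv i) → x ∈ Sp a (bn i) → ∀ t, Xs i t x → x ∉ E (p t)

/-- a good pair: a tardy piece of the complement of `A` inside `U` -/
def Good (A U : Set ℕ) (E : ℕ → List ℕ) (p : ℕ → ℕ) (q : Code × Code) : Prop :=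
  W q.1 \ W q.2 ⊆ Aᶜ ∧ W q.1 ⊆ U ∧ ∀ s x, Wst q.1 s x → ¬ Wst q.2 s x → x ∉ E (p s)

/-- `S` is covered by finitely many good pairs -/
def Cov (A U : Set ℕ) (E : ℕ → List ℕ) (p : ℕ → ℕ) (S : Set ℕ) : Prop :=
  ∃ pl : List (Code × Code), (∀ q ∈ pl, Good A U E p q) ∧ ∀ x ∈ S, ∃ q ∈ pl, x ∈ W q.1 \ W q.2

end blue

/-- the numbers which enter `C` and are given to a piece for the sake of requirement `i` -/
def Asg (cU cC : Code) (E : ℕ → List ℕ) (p : ℕ → ℕ) (a : ℕ → ℕ → ℕ) (i : ℕ) : Set ℕ :=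
  {x | ∃ s, ¬ Wst cC s x ∧ Wst cC (s + 1) x ∧ i < x ∧ bcond cU cC E p a i s x ∧
    ∀ i' < i, ¬ bcond cU cC E p a i' s x}

/-- BK1: a requirement which acts infinitely often is true and never won. -/
def TARGET_BK1 : Prop := ∀ (cU cC : Code) (E : ℕ → List ℕ) (p : ℕ → ℕ) (a : ℕ → ℕ → ℕ)
  (A : Set ℕ), IsEnum A E → BRun cU cC E p a → A ⊆ W cC → W cC ⊆ W cU →
  ∀ i, (Asg cU cC E p a i).Infinite → HYP cU cC a A i ∧ NW E p a i

/-- BK2: induction step. -/
def TARGET_BK2 : Prop := ∀ (cU cC : Code) (E : ℕ → List ℕ) (p : ℕ → ℕ) (a : ℕ → ℕ → ℕ)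
  (A : Set ℕ), IsEnum A E → Computable p → Computable₂ a → BRun cU cC E p a →
  A ⊆ W cC → W cC ⊆ W cU → WM (W cU) (W cC) A →
  ∀ i, HYP cU cC a A i → NW E p a i →
    (∀ i' < i, (Asg cU cC E p a i').Infinite →
      (W (bv i'))ᶜ = W (bv' i') ∧ Cov A (W cU) E p ((W cU ∩ W (bv i')) \ A)) →
    Cov A (W cU) E p ((W cU ∩ W (bv i)) \ A)

/-- BK: a true requirement which is never won gives a tardy presentation on its region. -/
def TARGET_BK : Prop := ∀ (cU cC : Code) (E : ℕ → List ℕ) (p : ℕ → ℕ) (a : ℕ → ℕ → ℕ)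
  (A : Set ℕ), IsEnum A E → Computable p → Computable₂ a → BRun cU cC E p a →
  A ⊆ W cC → W cC ⊆ W cU → WM (W cU) (W cC) A →
  ∀ i, HYP cU cC a A i → NW E p a i → Cov A (W cU) E p ((W cU ∩ W (bv i)) \ A)

/-- BP: the pair property gives a tardy presentation. -/
def TARGET_BP : Prop := ∀ (U A : Set ℕ) (Vs : Set (Set ℕ)) (E : ℕ → List ℕ) (p : ℕ → ℕ),
  CE U → IsEnum A E → (∀ V ∈ Vs, CE V ∧ CE Vᶜ) → PairQ U A Vs → Computable p → Monotone p →
  ∃ V ∈ Vs, Cov A U E p ((U ∩ V) \ A)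

/-- BA: the infinitary property implies very tardy. -/
def TARGET_BA : Prop := ∀ A : Set ℕ, CE A → InfQ A → VeryTardy A

/-! ## RED: the construction -/

section red

/-- the column of `x` -/
def mX (x : ℕ) : ℕ := x.unpair.1
/-- the opponent of `x` -/
def eX (x : ℕ) : ℕ := x.unpair.2.unpair.1
/-- the guess string of `x` -/
def wX (x : ℕ) : List ℕ := ofNat (List ℕ) x.unpair.2.unpair.2
/-- the length of the guess string -/
def LX (x : ℕ) : ℕ := mX x + eX x
/-- the presentation fought by `x` -/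
def lX (x : ℕ) : List Code := (ofNat (List Code) (eX x)).take (mX x)
/-- the guess of `x` about requirement `k`: `0` is infinitary, `b + 1` is exactly `b` -/
def gX (x k : ℕ) : ℕ := (wX x).getD k 0

/-- requirement `k`: the pair it deals with, `0` for `(C, A)`, `Nat.pair m i + 1` for level `i`
of column `m` -/
def rl (k : ℕ) : ℕ := k.unpair.1.unpair.1
/-- requirement `k`: index of `B` -/
def rb (k : ℕ) : Code := ofNat Code k.unpair.1.unpair.2.unpair.1
/-- requirement `k`: index of `S` -/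
def rs (k : ℕ) : Code := ofNat Code k.unpair.1.unpair.2.unpair.2.unpair.1
/-- requirement `k`: index of the complement of `S` in `C` -/
def rs' (k : ℕ) : Code := ofNat Code k.unpair.1.unpair.2.unpair.2.unpair.2.unpair.1
/-- requirement `k`: index of `T` -/
def rt (k : ℕ) : Code := ofNat Code k.unpair.1.unpair.2.unpair.2.unpair.2.unpair.2

/-- column of `λ` -/
def lm (l : ℕ) : ℕ := (l - 1).unpair.1
/-- level of `λ` -/
def li (l : ℕ) : ℕ := (l - 1).unpair.2

variable (ph : ℕ → ℕ → ℕ × ℕ)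

/-- `x` is in the universe of `l` at stage `s` -/
def Uin (l s x : ℕ) : Prop := l = 0 ∨ (l ≠ 0 ∧ mX x = lm l ∧ (li l ≤ (ph s x).1 ∨ (ph s x).2 = 0))
/-- `x` is in the set `C` of `l` at stage `s` -/
def Cin (l s x : ℕ) : Prop := (l = 0 ∧ (ph s x).2 ≤ mX x + 1) ∨
  (l ≠ 0 ∧ mX x = lm l ∧ (li l < (ph s x).1 ∨ ((ph s x).1 = li l ∧ (ph s x).2 ≤ LX x + 3) ∨
    (ph s x).2 = 0))
/-- `x` is in the set `A` of `l` at stage `s` -/
def Ain (l s x : ℕ) : Prop := (l = 0 ∧ (ph s x).2 = 0) ∨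
  (l ≠ 0 ∧ mX x = lm l ∧ (li l < (ph s x).1 ∨ (ph s x).2 = 0))

/-- the pair `l` treated by `x` at requirement `k` on level `i` -/
def cur (x i k : ℕ) : ℕ := if k < mX x then 0 else Nat.pair (mX x) i + 1
/-- the position of the pointer of `x` when it treats requirement `k` -/
def ptr (x k : ℕ) : ℕ := if k < mX x then k + 1 else k + 3
/-- requirement `k` is active for `x` at stage `s` -/
def act (s x k : ℕ) : Prop := rl k = cur x (ph s x).1 k ∧ gX x k = 0 ∧ Wst (rs k) s x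
/-- `x` is announced for requirement `k` at stage `s` -/
def AnnAt (s x k : ℕ) : Prop := k < LX x ∧ (ph s x).2 = ptr x k ∧ act ph s x k ∧
  ∀ k' < k, ¬ (act ph s x k' ∧ rl k' = rl k ∧ rb k' = rb k)
/-- stage approximation of the set `D` for `(l, b)` -/
def Dst (l : ℕ) (b : Code) (s x : ℕ) : Prop :=
  ∃ t < s, ∃ k < LX x, AnnAt ph t x k ∧ rl k = l ∧ rb k = b

/-- requirement `k` looks right at `y` at stage `t` -/
def phi (k y t : ℕ) : Prop :=
  (Cin ph (rl k) t y → (Wst (rs k) t y ↔ ¬ Wst (rs' k) t y)) ∧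
  (Wst (rs k) t y ∨ Wst (rs' k) t y → Cin ph (rl k) t y) ∧
  (Wst (rs k) t y → ¬ Ain ph (rl k) t y → (Wst (rb k) t y ↔ Dst ph (rl k) (rb k) t y)) ∧
  (Uin ph (rl k) t y → ¬ Cin ph (rl k) t y → Wst (rt k) t y)

/-- the maximal length of agreement of requirement `k` up to stage `s` is larger than `b` -/
def Big (k s b : ℕ) : Prop := ∃ t ≤ s, b < t ∧ ∀ y ≤ b, phi ph k y t
/-- the maximal length of agreement of requirement `k` up to stage `s` is exactly `b` -/
def Eqm (k s b : ℕ) : Prop := ¬ Big ph k s b ∧ (b = 0 ∨ Big ph k s (b - 1))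

/-- the guesses below `rr x c` matter when the pointer is at `c` -/
def rr (x c : ℕ) : ℕ := if c ≤ mX x then c else if c ≤ mX x + 2 then mX x else c - 2

/-- the guess of `x` looks right at stage `s` -/
def Guard (s x : ℕ) : Prop := (wX x).length = LX x ∧ ∀ k < LX x, k < rr x (ph s x).2 →
  (gX x k = 0 ∧ Big ph k s x) ∨ (gX x k ≠ 0 ∧ Eqm ph k s (gX x k - 1))

/-- the move condition -/
def MvC (s x : ℕ) : Prop :=
  ((ph s x).2 = LX x + 4 ∧ presSt (lX x) s x ∧
    ∀ k < LX x, mX x ≤ k → rl k = cur x (ph s x).1 k → gX x k = 0 → Wst (rt k) s x) ∨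
  ((ph s x).2 = LX x + 3 ∧
    ∀ k < LX x, mX x ≤ k → rl k = cur x (ph s x).1 k → gX x k = 0 →
      Wst (rs k) s x ∨ Wst (rs' k) s x) ∨
  ((ph s x).2 = mX x + 2 ∧ (¬ presSt (lX x) s x ∨
    ∀ k < mX x, rl k = 0 → gX x k = 0 → Wst (rt k) s x)) ∨
  ((ph s x).2 = mX x + 1 ∧
    ∀ k < mX x, rl k = 0 → gX x k = 0 → Wst (rs k) s x ∨ Wst (rs' k) s x) ∨
  (∃ k < LX x, (ph s x).2 = ptr x k ∧ ¬ (AnnAt ph s x k ∧ ¬ Wst (rb k) s x))

open Classical in
/-- the next state of `x` -/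
noncomputable def nxt (s x : ℕ) : ℕ × ℕ :=
  if Guard ph s x ∧ MvC ph s x then
    (if (ph s x).2 = mX x + 2 ∧ ¬ presSt (lX x) s x then ((ph s x).1 + 1, LX x + 4)
      else ((ph s x).1, (ph s x).2 - 1))
  else ph s x

/-- `ph` is the run of the construction: `ph s x = (level, position)` -/
def Run : Prop := (∀ x, ph 0 x = (0, LX x + 4)) ∧ ∀ s x, ph (s + 1) x = nxt ph s x

/-- `x` is frozen at stage `s` -/
def Frz (s x : ℕ) : Prop :=
  ∃ k < LX x, k < rr x (ph s x).2 ∧ gX x k ≠ 0 ∧ Big ph k s (gX x k - 1)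

/-- universe of `l` -/
def UU (l : ℕ) : Set ℕ := {x | ∃ s, Uin ph l s x}
/-- the set `C` of `l` -/
def CC (l : ℕ) : Set ℕ := {x | ∃ s, Cin ph l s x}
/-- the set `A` of `l` -/
def AA (l : ℕ) : Set ℕ := {x | ∃ s, Ain ph l s x}
/-- the set `D` of `(l, b)` -/
def DD (l : ℕ) (b : Code) : Set ℕ := {x | ∃ s, Dst ph l b s x}

/-- requirement `k` is infinitary -/
def Inf (k : ℕ) : Prop := ∀ b, ∃ s, Big ph k s b

open Classical in
/-- the true guess about requirement `k` -/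
noncomputable def tv (k : ℕ) : ℕ :=
  if h : ∃ b, ∀ s, ¬ Big ph k s b then Nat.find h + 1 else 0

end red

/-- RC: the construction is computable. -/
def TARGET_RC : Prop := ∃ ph : ℕ → ℕ → ℕ × ℕ, Computable₂ ph ∧ Run ph

end VT
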