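import Mathlib
import Pool.Agent.H46.VT.Defs

/-!
# MP_36d07e_lc: computability tools
-/

namespace Pool.Agent.H46.VT

open _root_.VT
open Nat.Partrec (Code)
open Nat.Partrec.Code Encodable Denumerable

variable {α β γ : Type} [Primcodable α] [Primcodable β] [Primcodable γ]

theorem cp_dec {p : α → Prop} (hp : ComputablePred p) :
    Computable (fun a => @decide (p a) (Classical.propDecidable _)) := by
  classical
  have := hp.decide
  exact this

theorem cp_of {p : α → Prop} (h : Computable (fun a => @decide (p a) (Classical.propDecidable _))) :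
    ComputablePred p := ⟨fun _ => Classical.propDecidable _, h⟩

theorem cp_comp {p : β → Prop} {f : α → β} (hp : ComputablePred p) (hf : Computable f) :
    ComputablePred (fun a => p (f a)) := by
  apply cp_of
  exact (cp_dec hp).comp hf

theorem cp_not {p : α → Prop} (hp : ComputablePred p) : ComputablePred (fun a => ¬ p a) := hp.not

theorem cp_and {p q : α → Prop} (hp : ComputablePred p) (hq : ComputablePred q) :
    ComputablePred (fun a => p a ∧ q a) := by
  apply cp_of
  have := Primrec.and.to_comp.comp (cp_dec hp) (cp_dec hq)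
  refine this.of_eq ?_
  intro a
  by_cases h1 : p a <;> by_cases h2 : q a <;> simp [h1, h2]

theorem cp_or {p q : α → Prop} (hp : ComputablePred p) (hq : ComputablePred q) :
    ComputablePred (fun a => p a ∨ q a) := by
  apply cp_of
  have := Primrec.or.to_comp.comp (cp_dec hp) (cp_dec hq)
  refine this.of_eq ?_
  intro a
  by_cases h1 : p a <;> by_cases h2 : q a <;> simp [h1, h2]

theorem cp_imp {p q : α → Prop} (hp : ComputablePred p) (hq : ComputablePred q) :
    ComputablePred (fun a => p a → q a) :=
  (cp_or (cp_not hp) hq).of_eq (fun a => by tauto)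

theorem cp_iff {p q : α → Prop} (hp : ComputablePred p) (hq : ComputablePred q) :
    ComputablePred (fun a => (p a ↔ q a)) :=
  (cp_and (cp_imp hp hq) (cp_imp hq hp)).of_eq (fun a => by tauto)

theorem cp_const (P : Prop) : ComputablePred (fun _ : α => P) := by
  apply cp_of
  exact Computable.const _

theorem cp_of_primrec {p : α → Prop} (hp : PrimrecPred p) : ComputablePred p := hp.computablePred

theorem cp_eq [DecidableEq β] {f g : α → β} (hf : Computable f) (hg : Computable g) :
    ComputablePred (fun a => f a = g a) := by
  have h : PrimrecRel (@Eq β) := Primrec.eq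
  have h2 : ComputablePred (fun q : β × β => q.1 = q.2) := cp_of_primrec h
  exact cp_comp (p := fun q : β × β => q.1 = q.2) (f := fun a => (f a, g a)) h2 (hf.pair hg)

theorem cp_lt {f g : α → ℕ} (hf : Computable f) (hg : Computable g) :
    ComputablePred (fun a => f a < g a) := by
  have h : PrimrecRel ((· < ·) : ℕ → ℕ → Prop) := Primrec.nat_lt
  have h2 : ComputablePred (fun q : ℕ × ℕ => q.1 < q.2) := cp_of_primrec h
  exact cp_comp (p := fun q : ℕ × ℕ => q.1 < q.2) (f := fun a => (f a, g a)) h2 (hf.pair hg)

theorem cp_le {f g : α → ℕ} (hf : Computable f) (hg : Computable g) :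
    ComputablePred (fun a => f a ≤ g a) := by
  have h : PrimrecRel ((· ≤ ·) : ℕ → ℕ → Prop) := Primrec.nat_le
  have h2 : ComputablePred (fun q : ℕ × ℕ => q.1 ≤ q.2) := cp_of_primrec h
  exact cp_comp (p := fun q : ℕ × ℕ => q.1 ≤ q.2) (f := fun a => (f a, g a)) h2 (hf.pair hg)

/-- bounded universal quantifier -/
theorem cp_forall_lt {p : α → ℕ → Prop} {n : α → ℕ}
    (hp : ComputablePred (fun q : α × ℕ => p q.1 q.2)) (hn : Computable n) :
    ComputablePred (fun a => ∀ y < n a, p a y) := by
  classical
  apply cp_of
  have h1 : Computable (fun a : α => (Nat.rec true (fun y IH => IH && decide (p a y)) (n a) : Bool)) := by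
    have hh : Computable₂ (fun (a : α) (q : ℕ × Bool) => q.2 && decide (p a q.1)) := by
      have e1 : Computable (fun q : α × (ℕ × Bool) => q.2.2) :=
        Computable.snd.comp Computable.snd
      have e2 : Computable (fun q : α × (ℕ × Bool) => decide (p q.1 q.2.1)) := by
        have := (cp_dec hp).comp
          ((Computable.fst : Computable (fun q : α × (ℕ × Bool) => q.1)).pair
            ((Computable.fst : Computable (fun q : ℕ × Bool => q.1)).comp Computable.snd))
        refine this.of_eq ?_
        intro q
        simp
      exact (Primrec.and.to_comp.comp e1 e2)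
    exact Computable.nat_rec hn (Computable.const true) hh
  refine h1.of_eq ?_
  intro a
  have key : ∀ m : ℕ, ((Nat.rec true (fun y IH => IH && decide (p a y)) m : Bool) = true ↔
      (∀ y < m, p a y)) := by
    intro m
    induction m with
    | zero => simp
    | succ m ih =>
      simp only [Bool.and_eq_true, decide_eq_true_eq, ih]
      constructor
      · rintro ⟨h, h'⟩ y hy
        rcases Nat.lt_succ_iff_lt_or_eq.1 hy with h3 | h3
        · exact h y h3
        · subst h3; exact h'
      · intro h
        exact ⟨fun y hy => h y (Nat.lt_succ_of_lt hy), h m (Nat.lt_succ_self m)⟩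
  rw [Bool.eq_iff_iff, key]
  simp

theorem cp_exists_lt {p : α → ℕ → Prop} {n : α → ℕ}
    (hp : ComputablePred (fun q : α × ℕ => p q.1 q.2)) (hn : Computable n) :
    ComputablePred (fun a => ∃ y < n a, p a y) := by
  have := cp_not (cp_forall_lt (p := fun a y => ¬ p a y) (cp_not hp) hn)
  refine this.of_eq ?_
  intro a
  push Not
  rfl

theorem cp_forall_le {p : α → ℕ → Prop} {n : α → ℕ}
    (hp : ComputablePred (fun q : α × ℕ => p q.1 q.2)) (hn : Computable n) :
    ComputablePred (fun a => ∀ y ≤ n a, p a y) := by
  refine (cp_forall_lt hp (Computable.succ.comp hn)).of_eq ?_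
  intro a
  simp

theorem cp_exists_le {p : α → ℕ → Prop} {n : α → ℕ}
    (hp : ComputablePred (fun q : α × ℕ => p q.1 q.2)) (hn : Computable n) :
    ComputablePred (fun a => ∃ y ≤ n a, p a y) := by
  refine (cp_exists_lt hp (Computable.succ.comp hn)).of_eq ?_
  intro a
  simp

/-- if-then-else, any decidability instance -/
theorem co_ite {c : α → Prop} {f g : α → β} (hc : ComputablePred c) (hf : Computable f)
    (hg : Computable g) (inst : ∀ a, Decidable (c a)) :
    Computable (fun a => if c a then f a else g a) := by
  classical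
  have := Computable.cond (cp_dec hc) hf hg
  refine this.of_eq ?_
  intro a
  by_cases h : c a <;> simp [h]

theorem cp_wst {c : α → Code} {s x : α → ℕ} (hc : Computable c) (hs : Computable s)
    (hx : Computable x) : ComputablePred (fun a => Wst (c a) (s a) (x a)) := by
  have h1 : Computable (fun q : (ℕ × Code) × ℕ => evaln q.1.1 q.1.2 q.2) :=
    primrec_evaln.to_comp
  have h2 : Computable (fun q : (ℕ × Code) × ℕ => (evaln q.1.1 q.1.2 q.2).isSome) :=
    (Primrec.option_isSome.to_comp).comp h1
  have h3 : Computable (fun a => (evaln (s a) (c a) (x a)).isSome) :=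
    h2.comp ((hs.pair hc).pair hx)
  apply cp_of
  refine h3.of_eq ?_
  intro a
  unfold Wst
  by_cases h : (evaln (s a) (c a) (x a)).isSome = true <;> simp [h]

theorem co_ofNatCode {f : α → ℕ} (hf : Computable f) :
    Computable (fun a => ofNat Code (f a)) := (Computable.ofNat Code).comp hf

theorem co_unpair1 {f : α → ℕ} (hf : Computable f) : Computable (fun a => (f a).unpair.1) :=
  Computable.fst.comp (Computable.unpair.comp hf)

theorem co_unpair2 {f : α → ℕ} (hf : Computable f) : Computable (fun a => (f a).unpair.2) :=
  Computable.snd.comp (Computable.unpair.comp hf)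

theorem co_pair {f g : α → ℕ} (hf : Computable f) (hg : Computable g) :
    Computable (fun a => Nat.pair (f a) (g a)) := Primrec₂.natPair.to_comp.comp hf hg

theorem co_add {f g : α → ℕ} (hf : Computable f) (hg : Computable g) :
    Computable (fun a => f a + g a) := Primrec.nat_add.to_comp.comp hf hg

theorem co_sub {f g : α → ℕ} (hf : Computable f) (hg : Computable g) :
    Computable (fun a => f a - g a) := Primrec.nat_sub.to_comp.comp hf hg

theorem co_getD {l : α → List β} {n : α → ℕ} (d : β) (hl : Computable l) (hn : Computable n) :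
    Computable (fun a => (l a).getD (n a) d) := (Primrec.list_getD d).to_comp.comp hl hn

theorem cp_mem [DecidableEq β] {l : α → List β} {x : α → β} (hl : Computable l)
    (hx : Computable x) : ComputablePred (fun a => x a ∈ l a) := by
  have h : PrimrecRel (fun (L : List β) (b : β) => ∃ a ∈ L, a = b) :=
    (PrimrecRel.exists_mem_list (R := fun (a b : β) => a = b) Primrec.eq)
  have h2 : ComputablePred (fun q : List β × β => ∃ a ∈ q.1, a = q.2) := cp_of_primrec h
  refine (cp_comp (p := fun q : List β × β => ∃ a ∈ q.1, a = q.2) (f := fun a => (l a, x a)) h2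
    (hl.pair hx)).of_eq ?_
  intro a
  simp

/-- `List.range n` mapped by a computable function -/
theorem co_range_map {f : α → ℕ → β} {n : α → ℕ}
    (hf : Computable (fun q : α × ℕ => f q.1 q.2)) (hn : Computable n) :
    Computable (fun a => (List.range (n a)).map (f a)) := by
  have h1 : Computable (fun a : α => (Nat.rec ([] : List β) (fun y IH => IH ++ [f a y]) (n a) :
      List β)) := by
    have hh : Computable₂ (fun (a : α) (q : ℕ × List β) => q.2 ++ [f a q.1]) := by
      have e1 : Computable (fun q : α × (ℕ × List β) => q.2.2) :=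
        Computable.snd.comp Computable.snd
      have e2 : Computable (fun q : α × (ℕ × List β) => f q.1 q.2.1) :=
        hf.comp ((Computable.fst : Computable (fun q : α × (ℕ × List β) => q.1)).pair
            ((Computable.fst : Computable (fun q : ℕ × List β => q.1)).comp Computable.snd))
      exact (Computable.list_concat.comp e1 e2)
    exact Computable.nat_rec hn (Computable.const []) hh
  refine h1.of_eq ?_
  intro a
  have key : ∀ m : ℕ, (Nat.rec ([] : List β) (fun y IH => IH ++ [f a y]) m : List β) =
      (List.range m).map (f a) := by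
    intro m
    induction m with
    | zero => simp
    | succ m ih => simp [ih, List.range_succ]
  rw [key]

/-- unbounded search -/
theorem co_find {P : α → ℕ → Prop} (hP : ComputablePred (fun q : α × ℕ => P q.1 q.2))
    (hex : ∀ a, ∃ n, P a n) (inst : ∀ a, DecidablePred (P a)) :
    Computable (fun a => @Nat.find (P a) (inst a) (hex a)) := by
  classical
  have := Computable.find (P := P) hP hex
  refine this.of_eq ?_
  intro a
  congr

/-! ### c.e. sets -/

theorem wst_mono {c : Code} {s t x : ℕ} (h : s ≤ t) (hs : Wst c s x) : Wst c t x := by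
  unfold Wst at *
  obtain ⟨y, hy⟩ := Option.isSome_iff_exists.1 hs
  have := evaln_mono h (show y ∈ evaln s c x from hy)
  rw [Option.isSome_iff_exists]
  exact ⟨y, this⟩

theorem wst_lt {c : Code} {s x : ℕ} (hs : Wst c s x) : x < s := by
  unfold Wst at hs
  obtain ⟨y, hy⟩ := Option.isSome_iff_exists.1 hs
  exact evaln_bound (show y ∈ evaln s c x from hy)

theorem not_wst_zero {c : Code} {x : ℕ} : ¬ Wst c 0 x := fun h => absurd (wst_lt h) (by omega)

theorem mem_W_iff {c : Code} {x : ℕ} : x ∈ W c ↔ (eval c x).Dom := by
  unfold W Wst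
  simp only [Set.mem_ofPred_eq]
  rw [Part.dom_iff_mem]
  constructor
  · rintro ⟨s, hs⟩
    obtain ⟨y, hy⟩ := Option.isSome_iff_exists.1 hs
    exact ⟨y, evaln_sound (show y ∈ evaln s c x from hy)⟩
  · rintro ⟨y, hy⟩
    obtain ⟨k, hk⟩ := evaln_complete.1 hy
    exact ⟨k, Option.isSome_iff_exists.2 ⟨y, hk⟩⟩

theorem ce_W (c : Code) : CE (W c) := by
  unfold CE
  have h : Partrec (fun x : ℕ => eval c x) := by
    have := eval_part.comp (Computable.const c) Computable.id
    exact this
  refine h.dom_re.of_eq ?_
  intro a
  exact mem_W_iff.symm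

/-- slow index: a set given by a computable predicate has an index which is slower than the
given enumeration -/
theorem exists_slow {P : ℕ → ℕ → Prop} (hP : ComputablePred (fun q : ℕ × ℕ => P q.1 q.2)) :
    ∃ c : Code, (∀ x, x ∈ W c ↔ ∃ s, P s x) ∧ ∀ s x, Wst c s x → ∃ t < s, P t x := by
  classical
  have h1 : Partrec (fun x : ℕ => Nat.rfind fun n => Part.some (decide (P n x))) := by
    apply Partrec.rfind
    have : Computable (fun q : ℕ × ℕ => decide (P q.2 q.1)) := by
      have := (cp_dec hP).comp
        ((Computable.snd : Computable (fun q : ℕ × ℕ => q.2)).pair Computable.fst)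
      refine this.of_eq ?_
      intro q; simp
    exact this.partrec
  obtain ⟨c0, hc0⟩ := exists_code.1 (Partrec.nat_iff.1 h1)
  refine ⟨Code.comp Code.succ c0, ?_, ?_⟩
  · intro x
    rw [mem_W_iff]
    simp only [eval, Part.bind_eq_bind]
    rw [hc0]
    constructor
    · intro h
      have h2 : (Nat.rfind fun n => Part.some (decide (P n x))).Dom := by
        exact h.1
      obtain ⟨n, hn⟩ := Part.dom_iff_mem.1 h2
      have := Nat.rfind_spec hn
      simp at this
      exact ⟨n, this⟩
    · rintro ⟨s, hs⟩
      have : (Nat.rfind fun n => Part.some (decide (P n x))).Dom := by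
        rw [Nat.rfind_dom]
        exact ⟨s, by simp [hs], fun _ => by simp⟩
      exact ⟨this, trivial⟩
  · intro s x hs
    unfold Wst at hs
    obtain ⟨y, hy⟩ := Option.isSome_iff_exists.1 hs
    cases s with
    | zero => simp [evaln] at hy
    | succ s =>
      simp only [evaln, Option.bind_eq_bind] at hy
      have hy' := hy
      simp only [Option.bind_eq_some_iff] at hy
      obtain ⟨_, _, n, hn, h3⟩ := hy
      have hb : n < s + 1 := by
        obtain ⟨_, h4, _⟩ := h3
        simp at h4
        omega
      have hn2 : n ∈ eval c0 x := evaln_sound (show n ∈ evaln (s+1) c0 x from hn)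
      rw [hc0] at hn2
      have := Nat.rfind_spec hn2
      simp at this
      exact ⟨n, hb, this⟩

theorem ce_iff_code {A : Set ℕ} : CE A ↔ ∃ c, A = W c := by
  constructor
  · intro h
    unfold CE REPred at h
    obtain ⟨c, hc⟩ := exists_code.1 (Partrec.nat_iff.1
      (h.map (Computable.const (0 : ℕ)).to₂))
    refine ⟨c, ?_⟩
    ext x
    rw [mem_W_iff, hc]
    simp [Part.assert]
  · rintro ⟨c, rfl⟩
    exact ce_W c

theorem ce_of_exists {P : ℕ → ℕ → Prop} (hP : ComputablePred (fun q : ℕ × ℕ => P q.1 q.2)) :
    CE {x | ∃ s, P s x} := by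
  obtain ⟨c, hc, _⟩ := exists_slow hP
  rw [ce_iff_code]
  exact ⟨c, by ext x; exact (hc x).symm⟩

theorem ce_of_computable {P : ℕ → Prop} (hP : ComputablePred P) : CE {x | P x} := hP.to_re

theorem ce_union {A B : Set ℕ} (hA : CE A) (hB : CE B) : CE (A ∪ B) := by
  obtain ⟨c, rfl⟩ := ce_iff_code.1 hA
  obtain ⟨d, rfl⟩ := ce_iff_code.1 hB
  have : CE {x | ∃ s, Wst c s x ∨ Wst d s x} := by
    apply ce_of_exists (P := fun s x => Wst c s x ∨ Wst d s x)
    exact cp_or (cp_wst (Computable.const c) Computable.fst Computable.snd)
      (cp_wst (Computable.const d) Computable.fst Computable.snd)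
  convert this using 1
  ext x
  simp [W, exists_or]

theorem ce_inter {A B : Set ℕ} (hA : CE A) (hB : CE B) : CE (A ∩ B) := by
  obtain ⟨c, rfl⟩ := ce_iff_code.1 hA
  obtain ⟨d, rfl⟩ := ce_iff_code.1 hB
  have : CE {x | ∃ s, Wst c s x ∧ Wst d s x} := by
    apply ce_of_exists (P := fun s x => Wst c s x ∧ Wst d s x)
    exact cp_and (cp_wst (Computable.const c) Computable.fst Computable.snd)
      (cp_wst (Computable.const d) Computable.fst Computable.snd)
  convert this using 1
  ext x
  simp only [W, Set.mem_inter_iff, Set.mem_ofPred_eq]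
  constructor
  · rintro ⟨⟨s, hs⟩, t, ht⟩
    exact ⟨max s t, wst_mono (le_max_left _ _) hs, wst_mono (le_max_right _ _) ht⟩
  · rintro ⟨s, h1, h2⟩
    exact ⟨⟨s, h1⟩, s, h2⟩

theorem ce_finite {F : Set ℕ} (hF : F.Finite) : CE F := by
  have : ComputablePred (fun x : ℕ => x ∈ hF.toFinset.toList) :=
    cp_mem (Computable.const _) Computable.id
  have h2 := ce_of_computable this
  convert h2 using 1
  ext x
  simp

theorem ce_univ : CE (Set.univ : Set ℕ) := by
  have := ce_of_computable (P := fun _ => True) (cp_const True)
  convert this using 1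
  ext x; simp

theorem ce_empty : CE (∅ : Set ℕ) := ce_finite Set.finite_empty

theorem ce_diff_finite {A F : Set ℕ} (hA : CE A) (hF : F.Finite) : CE (A \ F) := by
  have : ComputablePred (fun x : ℕ => ¬ x ∈ hF.toFinset.toList) :=
    cp_not (cp_mem (Computable.const _) Computable.id)
  have h2 := ce_inter hA (ce_of_computable this)
  convert h2 using 1
  ext x
  simp

theorem exists_enum {A : Set ℕ} (hA : CE A) : ∃ E, IsEnum A E := by
  classical
  obtain ⟨c, rfl⟩ := ce_iff_code.1 hA
  refine ⟨fun s => (List.range s).filterMap (fun x => if Wst c s x then some x else none), ?_, ?_, ?_⟩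
  · have h1 : Computable (fun s : ℕ => (List.range s).map
        (fun x => if Wst c s x then some x else none)) := by
      apply co_range_map (f := fun s x => if Wst c s x then some x else none) _ Computable.id
      exact co_ite (cp_wst (Computable.const c) Computable.fst Computable.snd)
        (Computable.option_some.comp Computable.snd) (Computable.const none) _
    have h2 : Computable (fun l : List (Option ℕ) => l.filterMap id) := by
      apply Primrec.to_comp
      exact Primrec.listFilterMap Primrec.id (Primrec.snd.to₂)
    refine (h2.comp h1).of_eq ?_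
    intro s
    simp [List.filterMap_map]
  · intro s t x hst hx
    simp only [List.mem_filterMap, List.mem_range] at hx ⊢
    obtain ⟨y, hy, h3⟩ := hx
    by_cases h : Wst c s y
    · rw [if_pos h] at h3
      exact ⟨y, by omega, by rw [if_pos (wst_mono hst h)]; exact h3⟩
    · rw [if_neg h] at h3; cases h3
  · intro x
    simp only [List.mem_filterMap, List.mem_range]
    constructor
    · rintro ⟨s, hs⟩
      exact ⟨s, x, wst_lt hs, by rw [if_pos hs]⟩
    · rintro ⟨s, y, hy, h3⟩
      by_cases h : Wst c s y
      · rw [if_pos h] at h3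
        cases h3
        exact ⟨s, h⟩
      · rw [if_neg h] at h3; cases h3

end Pool.Agent.H46.VT
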