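import Mathlib
import Pool.Agent.H46.VT.Defs

/-!
# MP_36d07e_lc: targets for the RED construction (board vt_modules)
-/

namespace VT

open Nat.Partrec (Code)
open Nat.Partrec.Code Encodable Denumerable

/-- PS: presentations by positions in the list. -/
def TARGET_PS : Prop :=
  (∀ (l : List Code) (s x : ℕ), presSt l s x ↔ ∃ j < l.length, j % 2 = 0 ∧
    Wst (l.getD j Code.zero) s x ∧ (j + 1 < l.length → ¬ Wst (l.getD (j + 1) Code.zero) s x)) ∧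
  (∀ (l : List Code) (x : ℕ), x ∈ presSet l ↔ ∃ j < l.length, j % 2 = 0 ∧
    x ∈ W (l.getD j Code.zero) ∧ (j + 1 < l.length → x ∉ W (l.getD (j + 1) Code.zero))) ∧
  ComputablePred (fun q : List Code × ℕ × ℕ => presSt q.1 q.2.1 q.2.2) ∧
  (∀ (l : List Code) (x : ℕ), ∃ s1, ∀ t, s1 ≤ t → (presSt l t x ↔ x ∈ presSet l))

/-- RG: computability of the predicates of the construction (with a parameter). -/
def TARGET_RG : Prop := ∀ (α : Type) (_ : Primcodable α) (F : α → ℕ → ℕ → ℕ × ℕ),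
  Computable (fun q : α × ℕ × ℕ => F q.1 q.2.1 q.2.2) →
  ComputablePred (fun q : α × ℕ × ℕ × ℕ => Uin (F q.1) q.2.1 q.2.2.1 q.2.2.2) ∧
  ComputablePred (fun q : α × ℕ × ℕ × ℕ => Cin (F q.1) q.2.1 q.2.2.1 q.2.2.2) ∧
  ComputablePred (fun q : α × ℕ × ℕ × ℕ => Ain (F q.1) q.2.1 q.2.2.1 q.2.2.2) ∧
  ComputablePred (fun q : α × ℕ × ℕ × ℕ => AnnAt (F q.1) q.2.1 q.2.2.1 q.2.2.2) ∧
  ComputablePred (fun q : α × (ℕ × Code) × ℕ × ℕ =>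
    Dst (F q.1) q.2.1.1 q.2.1.2 q.2.2.1 q.2.2.2) ∧
  ComputablePred (fun q : α × ℕ × ℕ × ℕ => Big (F q.1) q.2.1 q.2.2.1 q.2.2.2)

/-- RH: computability of the move conditions (with a parameter). -/
def TARGET_RH : Prop := ∀ (α : Type) (_ : Primcodable α) (F : α → ℕ → ℕ → ℕ × ℕ),
  Computable (fun q : α × ℕ × ℕ => F q.1 q.2.1 q.2.2) →
  ComputablePred (fun q : α × ℕ × ℕ => Guard (F q.1) q.2.1 q.2.2) ∧
  ComputablePred (fun q : α × ℕ × ℕ => MvC (F q.1) q.2.1 q.2.2) ∧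
  ComputablePred (fun q : α × ℕ × ℕ => Frz (F q.1) q.2.1 q.2.2) ∧
  Computable (fun q : α × ℕ × ℕ => nxt (F q.1) q.2.1 q.2.2)

/-- CD: coding facts. -/
def TARGET_CD : Prop :=
  (∀ x k, gX x k ≤ x) ∧
  (∀ n l (b s s' t : Code), ∃ k ≥ n, rl k = l ∧ rb k = b ∧ rs k = s ∧ rs' k = s' ∧ rt k = t) ∧
  (∀ (f : ℕ → ℕ) (n : ℕ),
    {x | LX x ≤ n ∧ (wX x).length = LX x ∧ ∀ k < LX x, gX x k = f k}.Finite) ∧
  (∀ (f : ℕ → ℕ) (l : List Code), ∃ x, mX x = l.length ∧ lX x = l ∧ (wX x).length = LX x ∧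
    ∀ k < LX x, gX x k = f k)

/-- RA: elementary facts on runs. -/
def TARGET_RA : Prop := ∀ ph : ℕ → ℕ → ℕ × ℕ, Run ph →
  (∀ s x, (ph s x).2 ≤ LX x + 4) ∧
  (∀ l s t x, s ≤ t → Uin ph l s x → Uin ph l t x) ∧
  (∀ l s t x, s ≤ t → Cin ph l s x → Cin ph l t x) ∧
  (∀ l s t x, s ≤ t → Ain ph l s x → Ain ph l t x) ∧
  (∀ l s x, Ain ph l s x → Cin ph l s x) ∧
  (∀ l s x, Cin ph l s x → Uin ph l s x) ∧
  (∀ s x, ph s x ≠ (0, LX x + 4) → (wX x).length = LX x ∧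
    ∃ t < s, x < t ∧ ph t x = (0, LX x + 4) ∧ Guard ph t x) ∧
  (∀ s t x, s ≤ t → (ph s x).1 ≤ (ph t x).1 ∧ ((ph s x).1 = (ph t x).1 →
    (ph t x).2 ≤ (ph s x).2)) ∧
  (∀ s t x, s ≤ t → (ph s x).2 ≤ mX x + 1 → (ph t x).1 = (ph s x).1 ∧ (ph t x).2 ≤ (ph s x).2) ∧
  (∀ k s t b b', s ≤ t → b' ≤ b → Big ph k s b → Big ph k t b') ∧
  (∀ s t x, s ≤ t → Frz ph s x → ph t x = ph s x ∧ Frz ph t x) ∧
  (∀ s x, ∃ t ≤ s, ph t x = ((ph s x).1, LX x + 4)) ∧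
  (∀ l b s t x, s ≤ t → Dst ph l b s x → Dst ph l b t x)

/-- LB: at most `mX x` levels. -/
def TARGET_LB : Prop := ∀ ph : ℕ → ℕ → ℕ × ℕ, Run ph → ∀ s x, (ph s x).1 ≤ mX x

/-- LF: limit facts. -/
def TARGET_LF : Prop := ∀ ph : ℕ → ℕ → ℕ × ℕ, Run ph →
  (∀ k, Inf ph k → ∀ x s0, ∃ t > s0, phi ph k x t) ∧
  (∀ k, tv ph k = 0 ↔ Inf ph k) ∧
  (∀ k b, tv ph k = b + 1 → (∀ s, ¬ Big ph k s b) ∧ ∀ b' < b, ∃ s, Big ph k s b') ∧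
  (∀ k, W (rs k) ∪ W (rs' k) = CC ph (rl k) → W (rs k) ∩ W (rs' k) = ∅ →
    W (rb k) ∩ (W (rs k) \ AA ph (rl k)) = DD ph (rl k) (rb k) ∩ (W (rs k) \ AA ph (rl k)) →
    UU ph (rl k) \ CC ph (rl k) ⊆ W (rt k) → Inf ph k)

/-- FE: only finitely many numbers with a wrong guess about a finitary requirement ever move. -/
def TARGET_FE : Prop := ∀ ph : ℕ → ℕ → ℕ × ℕ, Run ph → ∀ k, ¬ Inf ph k →
  {x | k < LX x ∧ gX x k ≠ tv ph k ∧ ∃ s, ph s x ≠ (0, LX x + 4)}.Finite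

/-- PL: progress. -/
def TARGET_PL : Prop := ∀ ph : ℕ → ℕ → ℕ × ℕ, Run ph → ∀ x s, (wX x).length = LX x →
  (ph s x).2 ≠ 0 → (∀ k < LX x, k < rr x (ph s x).2 → gX x k = tv ph k) →
  ((ph s x).2 = LX x + 4 → ∃ s1, ∀ t ≥ s1, presSt (lX x) t x) →
  ∃ t ≥ s, ph t x ≠ ph s x

/-- PI: iterated progress. -/
def TARGET_PI : Prop := ∀ ph : ℕ → ℕ → ℕ × ℕ, Run ph → ∀ x s, (wX x).length = LX x →
  (ph s x).2 ≤ LX x + 3 → (∀ k < LX x, k < rr x (ph s x).2 → gX x k = tv ph k) →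
  ∃ t ≥ s, (ph s x).1 < (ph t x).1 ∨ (ph t x).2 = 0

/-- SP: what has been checked before the pointer got to its position. -/
def TARGET_SP : Prop := ∀ ph : ℕ → ℕ → ℕ × ℕ, Run ph → ∀ s x,
  ((ph s x).2 ≤ LX x + 2 → ∀ k < LX x, mX x ≤ k → rl k = cur x (ph s x).1 k → gX x k = 0 →
    Wst (rs k) s x ∨ Wst (rs' k) s x) ∧
  ((ph s x).2 ≤ mX x → ∀ k < mX x, rl k = 0 → gX x k = 0 →
    Wst (rs k) s x ∨ Wst (rs' k) s x) ∧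
  ((ph s x).2 ≤ LX x + 3 → ∀ k < LX x, mX x ≤ k → rl k = cur x (ph s x).1 k → gX x k = 0 →
    Wst (rt k) s x) ∧
  ((ph s x).2 ≤ mX x + 1 → ∀ k < mX x, rl k = 0 → gX x k = 0 → Wst (rt k) s x)

/-- PT: the pointer passes through all positions. -/
def TARGET_PT : Prop := ∀ ph : ℕ → ℕ → ℕ × ℕ, Run ph → ∀ x t t' c, t ≤ t' →
  c ≤ (ph t x).2 →
  (((ph t x).1 < (ph t' x).1 ∧ mX x + 2 ≤ c) ∨ ((ph t x).1 = (ph t' x).1 ∧ (ph t' x).2 ≤ c)) →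
  ∃ t'', t ≤ t'' ∧ t'' ≤ t' ∧ ph t'' x = ((ph t x).1, c)

/-- PR: after the pointer has passed an active requirement, the answer has been given at the end
of the block. -/
def TARGET_PR : Prop := ∀ ph : ℕ → ℕ → ℕ × ℕ, Run ph → ∀ x t t' k, t ≤ t' →
  (ph t x).1 = (ph t' x).1 → k < LX x → (ph t x).2 = ptr x k → act ph t x k →
  (mX x ≤ k → (ph t' x).2 ≤ mX x + 2) → (k < mX x → (ph t' x).2 = 0) → Wst (rb k) t' x

/-- requirement `k` is in the block of `x` for `l` -/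
def blk (l k x : ℕ) : Prop := (l = 0 ∧ k < mX x) ∨ (l ≠ 0 ∧ mX x = lm l ∧ mX x ≤ k)

/-- the guess of `x` is true up to requirement `k` -/
def TrueUpTo (ph : ℕ → ℕ → ℕ × ℕ) (k x : ℕ) : Prop := k < LX x ∧ ∀ k' ≤ k, gX x k' = tv ph k'

/-- the set `T` for requirement `k` -/
def TT (ph : ℕ → ℕ → ℕ × ℕ) (k : ℕ) : Set ℕ :=
  {x | ∃ s, Uin ph (rl k) s x ∧ ¬ Cin ph (rl k) s x ∧ ∀ k' ≤ k, Inf ph k' → Big ph k' s x}

/-- TC: `TT k` is c.e. and large. -/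
def TARGET_TC : Prop := ∀ ph : ℕ → ℕ → ℕ × ℕ, Computable₂ ph → Run ph → ∀ k,
  CE (TT ph k) ∧ UU ph (rl k) \ CC ph (rl k) ⊆ TT ph k

/-- TU: almost all elements of `T ∩ C` have a true guess up to `k`. -/
def TARGET_TU : Prop := ∀ ph : ℕ → ℕ → ℕ × ℕ, Run ph → ∀ k,
  {x | x ∈ TT ph k ∧ x ∈ CC ph (rl k) ∧ (rl k = 0 → k < mX x) ∧ ¬ TrueUpTo ph k x}.Finite

/-- GA: first half of the conclusion. -/
def TARGET_GA : Prop := ∀ ph : ℕ → ℕ → ℕ × ℕ, Run ph → ∀ k x, blk (rl k) k x →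
  TrueUpTo ph k x → Inf ph k → (∃ s, Uin ph (rl k) s x ∧ ¬ Cin ph (rl k) s x) →
  x ∈ W (rs k) → x ∈ AA ph (rl k) → x ∈ W (rb k)

/-- GB: second half of the conclusion. -/
def TARGET_GB : Prop := ∀ ph : ℕ → ℕ → ℕ × ℕ, Run ph → ∀ k x, blk (rl k) k x →
  TrueUpTo ph k x → Inf ph k → x ∈ CC ph (rl k) →
  x ∈ W (rs k) → x ∈ W (rb k) → x ∈ AA ph (rl k)

/-- GL: the game is won. -/
def TARGET_GL : Prop := ∀ ph : ℕ → ℕ → ℕ × ℕ, Computable₂ ph → Run ph →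
  ∀ (l : ℕ) (b : Code) (S S' : Set ℕ), CE S → CE S' → S ∪ S' = CC ph l → S ∩ S' = ∅ →
    W b ∩ (S \ AA ph l) = DD ph l b ∩ (S \ AA ph l) →
    ∃ n, ∃ T, CE T ∧ UU ph l \ CC ph l ⊆ T ∧
      ∀ x, x ∈ S → x ∈ T → (l = 0 → n < mX x) → (x ∈ AA ph l ↔ x ∈ W b)

/-- WA: almost all elements of `C - A` are in `T` or frozen. -/
def TARGET_WA : Prop := ∀ ph : ℕ → ℕ → ℕ × ℕ, Run ph → ∀ k, (rl k ≠ 0 → lm (rl k) ≤ k) →
  Inf ph k → {x | x ∈ CC ph (rl k) ∧ x ∉ AA ph (rl k) ∧ x ∉ W (rt k) ∧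
    ¬ ∃ s, Frz ph s x}.Finite

/-- WL: the weak major subset property. -/
def TARGET_WL : Prop := ∀ ph : ℕ → ℕ → ℕ × ℕ, Computable₂ ph → Run ph →
  ∀ l, WM (UU ph l) (CC ph l) (AA ph l)

/-- NT: the constructed set is not `n`-tardy. -/
def TARGET_NT : Prop := ∀ ph : ℕ → ℕ → ℕ × ℕ, Computable₂ ph → Run ph →
  ∀ n, ¬ Tardy n (AA ph 0)

/-- CS: the sets are c.e. -/
def TARGET_CS : Prop := ∀ ph : ℕ → ℕ → ℕ × ℕ, Computable₂ ph → Run ph →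
  (∀ l, CE (UU ph l)) ∧ (∀ l, CE (CC ph l)) ∧ (∀ l, CE (AA ph l)) ∧ (∀ l b, CE (DD ph l b)) ∧
  (∀ l, AA ph l ⊆ CC ph l) ∧ (∀ l, CC ph l ⊆ UU ph l) ∧ (∀ l b, DD ph l b ⊆ CC ph l)

/-- IQ: the constructed set has the infinitary property. -/
def TARGET_IQ : Prop := ∀ ph : ℕ → ℕ → ℕ × ℕ, Computable₂ ph → Run ph → InfQ (AA ph 0)

end VT
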