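import Mathlib
import Pool.Agent.H46.VT.Defs
import Pool.Agent.H46.VT.Red

/-!
# MP_36d07e_lc: assembly
-/

namespace Pool.Agent.H46.VT

open _root_.VT

theorem main_of (hRC : TARGET_RC) (hIQ : TARGET_IQ) (hNT : TARGET_NT) (hCS : TARGET_CS)
    (hBA : TARGET_BA) (hPRO : TARGET_PRO) (hPERM : TARGET_PERM) (hINV : TARGET_INV) :
    TARGET_MAIN := by
  obtain ⟨ph, hc, hR⟩ := hRC
  have hCE : CE (AA ph 0) := (hCS ph hc hR).2.2.1 0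
  have hI : InfQ (AA ph 0) := hIQ ph hc hR
  refine ⟨⟨AA ph 0, hCE⟩, ⟨hBA _ hCE hI, hNT ph hc hR⟩, ?_⟩
  intro Φ hcomp
  obtain ⟨φ, h1, h2⟩ := hPERM Φ
  have h3 : InfQ (Φ ⟨AA ph 0, hCE⟩).1 := by
    rw [h1]
    exact hINV φ h2 _ hI
  have h4 := hBA _ (Φ ⟨AA ph 0, hCE⟩).2 h3
  exact h4.2 (hPRO _ (Φ ⟨AA ph 0, hCE⟩).2 hcomp)

end Pool.Agent.H46.VT
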