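import Mathlib
import Pool.Agent.H46.VT.Defs
import Pool.Agent.H46.VT.Tools
import Pool.Agent.H46.VT.Red

/-!
# MP_36d07e_lc: module RA
-/

namespace Pool.Agent.H46.VT

open _root_.VT
open Nat.Partrec (Code)
open Nat.Partrec.Code Encodable Denumerable

theorem presSt_lt : ∀ (l : List Code) (s x : ℕ), presSt l s x → x < s
  | [], _, _, h => by simp [presSt] at h
  | [c], s, x, h => by simp only [presSt] at h; exact wst_lt h
  | c :: d :: l, s, x, h => by
    simp only [presSt] at h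
    rcases h with h | h
    · exact wst_lt h.1
    · exact presSt_lt l s x h

theorem ptr_pos (x k : ℕ) : 1 ≤ ptr x k := by unfold ptr; split_ifs <;> omega

theorem ptr_le {x k : ℕ} (h : k < LX x) : ptr x k ≤ LX x + 2 := by
  unfold ptr; split_ifs <;> omega

theorem mX_le_LX (x : ℕ) : mX x ≤ LX x := by unfold LX; omega

theorem MvC_pos {ph : ℕ → ℕ → ℕ × ℕ} {s x : ℕ} (h : MvC ph s x) :
    1 ≤ (ph s x).2 ∧ (ph s x).2 ≤ LX x + 4 := by
  have hm := mX_le_LX x
  rcases h with h | h | h | h | ⟨k, hk, h, _⟩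
  · omega
  · omega
  · have := h.1; omega
  · have := h.1; omega
  · have h1 := ptr_pos x k
    have h2 := ptr_le hk
    omega

theorem step_cases {ph : ℕ → ℕ → ℕ × ℕ} (hR : Run ph) (s x : ℕ) :
    ph (s + 1) x = ph s x ∨ (Guard ph s x ∧ MvC ph s x ∧
      (((ph s x).2 = mX x + 2 ∧ ¬ presSt (lX x) s x ∧ ph (s + 1) x = ((ph s x).1 + 1, LX x + 4)) ∨
       (¬ ((ph s x).2 = mX x + 2 ∧ ¬ presSt (lX x) s x) ∧
        ph (s + 1) x = ((ph s x).1, (ph s x).2 - 1)))) := by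
  have h := hR.2 s x
  unfold nxt at h
  by_cases h1 : Guard ph s x ∧ MvC ph s x
  · rw [if_pos h1] at h
    right
    refine ⟨h1.1, h1.2, ?_⟩
    by_cases h2 : (ph s x).2 = mX x + 2 ∧ ¬ presSt (lX x) s x
    · rw [if_pos h2] at h
      exact Or.inl ⟨h2.1, h2.2, h⟩
    · rw [if_neg h2] at h
      exact Or.inr ⟨h2, h⟩
  · rw [if_neg h1] at h
    exact Or.inl h

theorem pos_le {ph : ℕ → ℕ → ℕ × ℕ} (hR : Run ph) (s x : ℕ) : (ph s x).2 ≤ LX x + 4 := by
  induction s with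
  | zero => rw [hR.1 x]
  | succ s ih =>
    rcases step_cases hR s x with h | ⟨_, _, ⟨_, _, h⟩ | ⟨_, h⟩⟩
    · rw [h]; exact ih
    · rw [h]
    · rw [h]; simp only; omega

/-- one step facts -/
theorem step_facts {ph : ℕ → ℕ → ℕ × ℕ} (hR : Run ph) (s x : ℕ) :
    (ph s x).1 ≤ (ph (s + 1) x).1 ∧
    ((ph s x).1 = (ph (s + 1) x).1 → (ph (s + 1) x).2 ≤ (ph s x).2) ∧
    ((ph s x).2 ≤ mX x + 1 → (ph (s + 1) x).1 = (ph s x).1) := by
  rcases step_cases hR s x with h | ⟨_, _, ⟨h1, _, h⟩ | ⟨_, h⟩⟩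
  · rw [h]; simp
  · rw [h]; simp only
    refine ⟨by omega, by omega, by omega⟩
  · rw [h]; simp

theorem lev_mono {ph : ℕ → ℕ → ℕ × ℕ} (hR : Run ph) (s t x : ℕ) (hst : s ≤ t) :
    (ph s x).1 ≤ (ph t x).1 := by
  induction t, hst using Nat.le_induction with
  | base => exact le_refl _
  | succ t _ ih => exact ih.trans (step_facts hR t x).1

theorem pos_mono {ph : ℕ → ℕ → ℕ × ℕ} (hR : Run ph) (s t x : ℕ) (hst : s ≤ t)
    (h : (ph s x).1 = (ph t x).1) : (ph t x).2 ≤ (ph s x).2 := by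
  induction t, hst using Nat.le_induction with
  | base => exact le_refl _
  | succ t hst ih =>
    have h1 := lev_mono hR s t x hst
    have h2 := (step_facts hR t x).1
    have h3 : (ph s x).1 = (ph t x).1 := by omega
    have h4 : (ph t x).1 = (ph (t + 1) x).1 := by omega
    exact ((step_facts hR t x).2.1 h4).trans (ih h3)

theorem low_mono {ph : ℕ → ℕ → ℕ × ℕ} (hR : Run ph) (s t x : ℕ) (hst : s ≤ t)
    (h : (ph s x).2 ≤ mX x + 1) : (ph t x).1 = (ph s x).1 ∧ (ph t x).2 ≤ (ph s x).2 := by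
  induction t, hst using Nat.le_induction with
  | base => exact ⟨rfl, le_refl _⟩
  | succ t hst ih =>
    have h1 := (step_facts hR t x).2.2 (ih.2.trans h)
    have h2 := (step_facts hR t x).2.1 h1.symm
    exact ⟨h1.trans ih.1, h2.trans ih.2⟩

theorem Uin_mono {ph : ℕ → ℕ → ℕ × ℕ} (hR : Run ph) (l s t x : ℕ) (hst : s ≤ t)
    (h : Uin ph l s x) : Uin ph l t x := by
  rcases h with h | ⟨h0, h1, h2⟩
  · exact Or.inl h
  · refine Or.inr ⟨h0, h1, ?_⟩
    rcases h2 with h2 | h2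
    · exact Or.inl (h2.trans (lev_mono hR s t x hst))
    · right
      have := (low_mono hR s t x hst (by omega)).2
      omega

theorem Cin_mono {ph : ℕ → ℕ → ℕ × ℕ} (hR : Run ph) (l s t x : ℕ) (hst : s ≤ t)
    (h : Cin ph l s x) : Cin ph l t x := by
  have hl := lev_mono hR s t x hst
  rcases h with ⟨h0, h⟩ | ⟨h0, h1, h2⟩
  · have := (low_mono hR s t x hst h).2
    exact Or.inl ⟨h0, by omega⟩
  · refine Or.inr ⟨h0, h1, ?_⟩
    rcases h2 with h2 | ⟨h2, h3⟩ | h2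
    · exact Or.inl (by omega)
    · by_cases h4 : (ph s x).1 = (ph t x).1
      · have := pos_mono hR s t x hst h4
        exact Or.inr (Or.inl ⟨by omega, by omega⟩)
      · exact Or.inl (by omega)
    · have := (low_mono hR s t x hst (by omega)).2
      exact Or.inr (Or.inr (by omega))

theorem Ain_mono {ph : ℕ → ℕ → ℕ × ℕ} (hR : Run ph) (l s t x : ℕ) (hst : s ≤ t)
    (h : Ain ph l s x) : Ain ph l t x := by
  have hl := lev_mono hR s t x hst
  rcases h with ⟨h0, h⟩ | ⟨h0, h1, h2⟩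
  · have := (low_mono hR s t x hst (by omega)).2
    exact Or.inl ⟨h0, by omega⟩
  · refine Or.inr ⟨h0, h1, ?_⟩
    rcases h2 with h2 | h2
    · exact Or.inl (by omega)
    · have := (low_mono hR s t x hst (by omega)).2
      exact Or.inr (by omega)

theorem Ain_Cin {ph : ℕ → ℕ → ℕ × ℕ} (l s x : ℕ) (h : Ain ph l s x) : Cin ph l s x := by
  rcases h with ⟨h0, h⟩ | ⟨h0, h1, h2⟩
  · exact Or.inl ⟨h0, by omega⟩
  · refine Or.inr ⟨h0, h1, ?_⟩
    rcases h2 with h2 | h2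
    · exact Or.inl h2
    · exact Or.inr (Or.inr h2)

theorem Cin_Uin {ph : ℕ → ℕ → ℕ × ℕ} (l s x : ℕ) (h : Cin ph l s x) : Uin ph l s x := by
  rcases h with ⟨h0, h⟩ | ⟨h0, h1, h2⟩
  · exact Or.inl h0
  · refine Or.inr ⟨h0, h1, ?_⟩
    rcases h2 with h2 | h2 | h2
    · exact Or.inl (by omega)
    · exact Or.inl (by omega)
    · exact Or.inr h2

theorem Big_mono {ph : ℕ → ℕ → ℕ × ℕ} (k s t b b' : ℕ) (hst : s ≤ t) (hb : b' ≤ b)
    (h : Big ph k s b) : Big ph k t b' := by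
  obtain ⟨u, hu, h1, h2⟩ := h
  exact ⟨u, hu.trans hst, by omega, fun y hy => h2 y (hy.trans hb)⟩

theorem first_move {ph : ℕ → ℕ → ℕ × ℕ} (hR : Run ph) (s x : ℕ)
    (h : ph s x ≠ (0, LX x + 4)) : (wX x).length = LX x ∧
    ∃ t < s, x < t ∧ ph t x = (0, LX x + 4) ∧ Guard ph t x := by
  induction s with
  | zero => exact absurd (hR.1 x) h
  | succ s ih =>
    by_cases h1 : ph s x = (0, LX x + 4)
    · rcases step_cases hR s x with h2 | ⟨hG, hM, _⟩
      · rw [h2] at h; exact absurd h1 h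
      · refine ⟨hG.1, s, Nat.lt_succ_self s, ?_, h1, hG⟩
        have hm := mX_le_LX x
        have hp : (ph s x).2 = LX x + 4 := by rw [h1]
        rcases hM with hM | hM | hM | hM | ⟨k, hk, hM, _⟩
        · exact presSt_lt _ _ _ hM.2.1
        · omega
        · have := hM.1; omega
        · have := hM.1; omega
        · have := ptr_le hk; omega
    · obtain ⟨a, t, ht, b⟩ := ih h1
      exact ⟨a, t, by omega, b⟩

theorem reset {ph : ℕ → ℕ → ℕ × ℕ} (hR : Run ph) (s x : ℕ) :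
    ∃ t ≤ s, ph t x = ((ph s x).1, LX x + 4) := by
  induction s with
  | zero => exact ⟨0, le_refl _, by rw [hR.1 x]⟩
  | succ s ih =>
    rcases step_cases hR s x with h | ⟨_, _, ⟨h1, _, h⟩ | ⟨_, h⟩⟩
    · obtain ⟨t, ht, h2⟩ := ih
      exact ⟨t, by omega, by rw [h]; exact h2⟩
    · exact ⟨s + 1, le_refl _, by rw [h]⟩
    · obtain ⟨t, ht, h2⟩ := ih
      exact ⟨t, by omega, by rw [h]; exact h2⟩

theorem not_guard_of_Frz {ph : ℕ → ℕ → ℕ × ℕ} {s x : ℕ} (h : Frz ph s x) : ¬ Guard ph s x := by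
  rintro ⟨_, hg⟩
  obtain ⟨k, hk, hr, h0, hB⟩ := h
  rcases hg k hk hr with ⟨h1, _⟩ | ⟨_, h1, _⟩
  · exact h0 h1
  · exact h1 hB

theorem Frz_stay {ph : ℕ → ℕ → ℕ × ℕ} (hR : Run ph) (s t x : ℕ) (hst : s ≤ t)
    (h : Frz ph s x) : ph t x = ph s x ∧ Frz ph t x := by
  induction t, hst using Nat.le_induction with
  | base => exact ⟨rfl, h⟩
  | succ t hst ih =>
    have h1 : ph (t + 1) x = ph t x := by
      rcases step_cases hR t x with h1 | ⟨hG, _, _⟩
      · exact h1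
      · exact absurd hG (not_guard_of_Frz ih.2)
    refine ⟨h1.trans ih.1, ?_⟩
    obtain ⟨k, hk, hr, h0, hB⟩ := ih.2
    refine ⟨k, hk, ?_, h0, Big_mono k t (t + 1) _ _ (Nat.le_succ t) (le_refl _) hB⟩
    rw [h1]; exact hr

theorem Dst_mono {ph : ℕ → ℕ → ℕ × ℕ} (l : ℕ) (b : Code) (s t x : ℕ) (hst : s ≤ t)
    (h : Dst ph l b s x) : Dst ph l b t x := by
  obtain ⟨u, hu, h⟩ := h
  exact ⟨u, lt_of_lt_of_le hu hst, h⟩

theorem pf_RA : TARGET_RA := by
  intro ph hR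
  exact ⟨pos_le hR, Uin_mono hR, Cin_mono hR, Ain_mono hR, Ain_Cin, Cin_Uin, first_move hR,
    fun s t x hst => ⟨lev_mono hR s t x hst, pos_mono hR s t x hst⟩, low_mono hR, Big_mono,
    Frz_stay hR, reset hR, Dst_mono⟩

end Pool.Agent.H46.VT
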