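import Mathlib
import Pool.Agent.H46.VT.Defs
import Pool.Agent.H46.VT.Red

/-!
# MP_36d07e_lc, module WA: almost all elements of C - A are in T or frozen
-/

namespace Pool.Agent.H46.VT

open _root_.VT
open Nat.Partrec (Code)
open Nat.Partrec.Code Encodable Denumerable

theorem wa_core (hRA : TARGET_RA) (hLF : TARGET_LF) (hPI : TARGET_PI) {ph : ℕ → ℕ → ℕ × ℕ}
    (hR : Run ph) (x k M s0 : ℕ) (hM : M ≤ LX x) (hlen : (wX x).length = LX x)
    (hnf : ¬ ∃ s, Frz ph s x)
    (hne : ∀ k' ≤ k, ¬ Inf ph k' → k' < LX x → gX x k' = tv ph k')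
    (hrr : ∀ s ≥ s0, (ph s x).2 ≤ LX x + 3 ∧ ∀ k' < LX x, k' < rr x (ph s x).2 → k' < M)
    (hNP : ∀ s ≥ s0, ∀ t ≥ s, ¬((ph s x).1 < (ph t x).1 ∨ (ph t x).2 = 0)) :
    k < M ∧ ∀ k' ≤ k, gX x k' = tv ph k' := by
  classical
  obtain ⟨-, -, -, -, -, -, -, -, -, hBig, -, -, -⟩ := hRA ph hR
  have key : ∀ k', k' ≤ k → k' < M → gX x k' = tv ph k' := by
    by_contra h
    push Not at h
    obtain ⟨h1, h2, h3⟩ := Nat.find_spec h
    have hmin : ∀ j, j < Nat.find h → j ≤ k → j < M → gX x j = tv ph j := by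
      intro j hj hjk hjM
      by_contra hne'
      exact Nat.find_min h hj ⟨hjk, hjM, hne'⟩
    generalize Nat.find h = k0 at h1 h2 h3 hmin
    have hInf : Inf ph k0 := by
      by_contra hc
      exact h3 (hne k0 h1 hc (lt_of_lt_of_le h2 hM))
    have htv : tv ph k0 = 0 := ((hLF ph hR).2.1 k0).2 hInf
    have hg : gX x k0 ≠ 0 := by rw [htv] at h3; exact h3
    obtain ⟨s1, hs1⟩ := hInf (gX x k0 - 1)
    have hb := hBig k0 s1 (max s0 s1) (gX x k0 - 1) (gX x k0 - 1) (le_max_right _ _) le_rfl hs1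
    have hrr0 : ¬ k0 < rr x (ph (max s0 s1) x).2 := fun h =>
      hnf ⟨max s0 s1, k0, lt_of_lt_of_le h2 hM, h, hg, hb⟩
    have hs := hrr (max s0 s1) (le_max_left _ _)
    obtain ⟨t, ht, ht'⟩ := hPI ph hR x (max s0 s1) hlen hs.1 (by
      intro k' hk' hk''
      exact hmin k' (by omega) (by omega) (hs.2 k' hk' hk''))
    exact hNP _ (le_max_left _ _) t ht ht'
  have hkM : k < M := by
    by_contra hkM
    have hs := hrr s0 le_rfl
    obtain ⟨t, ht, ht'⟩ := hPI ph hR x s0 hlen hs.1 (by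
      intro k' hk' hk''
      have := hs.2 k' hk' hk''
      exact key k' (by omega) this)
    exact hNP _ le_rfl t ht ht'
  exact ⟨hkM, fun k' hk' => key k' hk' (by omega)⟩

theorem pf_WA (hRA : TARGET_RA) (hLF : TARGET_LF) (hFE : TARGET_FE) (hPI : TARGET_PI)
    (hSP : TARGET_SP) : TARGET_WA := by
  intro ph hR k hk hInf
  obtain ⟨hpos, hU, hC, hA, -, -, hmoved, hlev, hlow, -, -, -, -⟩ := hRA ph hR
  have hfin : (⋃ k' ∈ {k' | k' ≤ k ∧ ¬ Inf ph k'},
      {x | k' < LX x ∧ gX x k' ≠ tv ph k' ∧ ∃ s, ph s x ≠ (0, LX x + 4)}).Finite := by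
    apply Set.Finite.biUnion
    · exact (Set.finite_Iic k).subset fun k' hk' => hk'.1
    · intro k' hk'
      exact hFE ph hR k' hk'.2
  refine hfin.subset ?_
  rintro x ⟨hxC, hxA, hxT, hxF⟩
  by_contra hx
  simp only [Set.mem_ofPred_eq, Set.mem_iUnion, not_exists, exists_prop, not_and] at hx
  obtain ⟨s0, hs0⟩ := hxC
  have hmv : ph s0 x ≠ (0, LX x + 4) := by
    intro h
    have hL : LX x = mX x + eX x := rfl
    unfold Cin at hs0
    rw [h] at hs0
    simp only at hs0
    omega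
  have hlen := (hmoved s0 x hmv).1
  have hne : ∀ k' ≤ k, ¬ Inf ph k' → k' < LX x → gX x k' = tv ph k' := by
    intro k' h1 h2 h3
    by_contra h4
    exact hx k' ⟨h1, h2⟩ h3 h4 s0 hmv
  have htv : tv ph k = 0 := ((hLF ph hR).2.1 k).2 hInf
  have hCs : ∀ s ≥ s0, Cin ph (rl k) s x := fun s hs => hC _ _ _ _ hs hs0
  have hAs : ∀ s, ¬ Ain ph (rl k) s x := fun s hs => hxA ⟨s, hs⟩
  by_cases hl : rl k = 0
  · have hc : ∀ s ≥ s0, (ph s x).2 ≤ mX x + 1 := by
      intro s hs
      have := hCs s hs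
      unfold Cin at this
      omega
    have hp : ∀ s, (ph s x).2 ≠ 0 := by
      intro s h
      exact hAs s (Or.inl ⟨hl, h⟩)
    obtain ⟨h1, h2⟩ := wa_core hRA hLF hPI hR x k (mX x) s0 (by unfold LX; omega) hlen hxF hne
      (by
        intro s hs
        have := hc s hs
        refine ⟨by unfold LX; omega, ?_⟩
        intro k' _ hk''
        unfold rr at hk''
        split_ifs at hk'' <;> omega)
      (by
        intro s hs t ht h
        rcases h with h | h
        · have := (hlow s t x ht (hc s hs)).1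
          omega
        · exact hp t h)
    have hg : gX x k = 0 := by rw [h2 k le_rfl, htv]
    have := (hSP ph hR s0 x).2.2.2 (hc s0 le_rfl) k h1 hl hg
    exact hxT ⟨s0, this⟩
  · have hc : ∀ s ≥ s0, mX x = lm (rl k) ∧ (ph s x).1 = li (rl k) ∧ (ph s x).2 ≤ LX x + 3 ∧
        (ph s x).2 ≠ 0 := by
      intro s hs
      have h1 := hCs s hs
      have h2 := hAs s
      unfold Cin at h1
      unfold Ain at h2
      omega
    obtain ⟨h1, h2⟩ := wa_core hRA hLF hPI hR x k (LX x) s0 le_rfl hlen hxF hne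
      (by
        intro s hs
        exact ⟨(hc s hs).2.2.1, fun k' hk' _ => hk'⟩)
      (by
        intro s hs t ht h
        have h1 := hc s hs
        have h2 := hc t (le_trans hs ht)
        omega)
    have hg : gX x k = 0 := by rw [h2 k le_rfl, htv]
    have hc0 := hc s0 le_rfl
    have hkm : mX x ≤ k := by rw [hc0.1]; exact hk hl
    have hcur : rl k = cur x (ph s0 x).1 k := by
      unfold cur
      rw [if_neg (by omega), hc0.1, hc0.2.1]
      unfold lm li
      rw [Nat.pair_unpair]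
      omega
    have := (hSP ph hR s0 x).2.2.1 hc0.2.2.1 k h1 hkm hcur hg
    exact hxT ⟨s0, this⟩

end Pool.Agent.H46.VT
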