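import Mathlib
import Pool.Agent.H46.VT.MainOf
import Pool.Agent.H46.VT.RA
import Pool.Agent.H46.VT.WA
import Pool.Agent.H17.VT.BK2
import Pool.Agent.H17.VT.TU
import Pool.Agent.H30.VT.BC
import Pool.Agent.H30.VT.BK1
import Pool.Agent.H30.VT.CD
import Pool.Agent.H33.VT.BP
import Pool.Agent.H35.VT.CS
import Pool.Agent.H35.VT.GL
import Pool.Agent.H35.VT.PERM
import Pool.Agent.H35.VT.SP
import Pool.Agent.H36.VT.ORC
import Pool.Agent.H36.VT.PL
import Pool.Agent.H36.VT.PRO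
import Pool.Agent.H42.VT.LB
import Pool.Agent.H42.VT.PI
import Pool.Agent.H43.VT.FE
import Pool.Agent.H43.VT.TC
import Pool.Agent.H43.VT.WL
import Pool.Agent.H54.VT.BK
import Pool.Agent.H54.VT.PR
import Pool.Agent.H55.VT.INV
import Pool.Agent.H64.VT.LF
import Pool.Agent.H64.VT.RC
import Pool.Agent.H64.VT.RH
import Pool.Agent.H67.VT.PS
import Pool.Agent.H73.VT.BA
import Pool.Agent.H73.VT.GB
import Pool.Agent.H81.VT.GA
import Pool.Agent.H85.VT.IQ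
import Pool.Agent.H87.VT.NT
import Pool.Agent.H87.VT.RG

/-!
# MP_36d07e_lc: assembly of all modules
-/

namespace Pool.Agent.H46.VT

open _root_.VT

theorem final : TARGET_MAIN := by
  have hRA : TARGET_RA := pf_RA
  have hPS : TARGET_PS := Pool.Agent.H67.VT.PS.pf_PS
  have hCD : TARGET_CD := Pool.Agent.H30.VT.CD.pf_CD
  have hRG : TARGET_RG := Pool.Agent.H87.VT.pf_RG
  have hCS : TARGET_CS := Pool.Agent.H35.VT.pf_CS hRA hRG
  have hRH : TARGET_RH := Pool.Agent.H64.VT.pf_RH hRG hPS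
  have hRC : TARGET_RC := Pool.Agent.H64.VT.pf_RC hRH
  have hLF : TARGET_LF := Pool.Agent.H64.VT.pf_LF hRA
  have hLB : TARGET_LB := Pool.Agent.H42.VT.LB.pf_LB hRA hPS
  have hFE : TARGET_FE := _root_.VT.H43.pf_FE hRA hLF
  have hPL : TARGET_PL := Pool.Agent.H36.VT.pf_PL hRA hLF
  have hPI : TARGET_PI := Pool.Agent.H42.VT.PI.pf_PI hRA hPL
  have hSP : TARGET_SP := Pool.Agent.H35.VT.pf_SP hRA
  have hPT : TARGET_PT := Pool.Agent.H35.VT.pf_PT hRA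
  have hPR : TARGET_PR := Pool.Agent.H54.VT.pf_PR hRA hPT
  have hTC : TARGET_TC := _root_.VT.H43.pf_TC hRA hRG
  have hTU : TARGET_TU := Pool.Agent.H17.VT.pf_TU hRA hLF hFE hCD
  have hGA : TARGET_GA := Pool.Agent.H81.VT.GA.pf_GA hRA hLF hSP hPT hPR
  have hGB : TARGET_GB := Pool.Agent.H73.VT.pf_GB hRA hLF hSP hPI
  have hGL : TARGET_GL := Pool.Agent.H35.VT.pf_GL hCD hLF hTC hTU hGA hGB hCS hRA
  have hWA : TARGET_WA := pf_WA hRA hLF hFE hPI hSP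
  have hWL : TARGET_WL := _root_.VT.H43.pf_WL hWA hCD hLF hRG hRH hRA hCS
  have hIQ : TARGET_IQ := Pool.Agent.H85.VT.IQ.pf_IQ hGL hWL hCS hLB hRA
  have hNT : TARGET_NT := Pool.Agent.H87.VT.pf_NT hRA hLB hLF hPS hCD hPL hPI hPT hRG
  have hBC : TARGET_BC := Pool.Agent.H30.VT.BC.pf_BC
  have hBK1 : TARGET_BK1 := Pool.Agent.H30.VT.BK1.pf_BK1
  have hBK2 : TARGET_BK2 := Pool.Agent.H17.VT.pf_BK2
  have hBK : TARGET_BK := Pool.Agent.H54.VT.pf_BK hBK1 hBK2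
  have hBP : TARGET_BP := Pool.Agent.H33.VT.BP.pf_BP hBC hBK
  have hBA : TARGET_BA := Pool.Agent.H73.VT.pf_BA hBP
  have hORC : TARGET_ORC := Pool.Agent.H36.VT.pf_ORC
  have hPRO : TARGET_PRO := Pool.Agent.H36.VT.pf_PRO hORC hPS
  exact main_of hRC hIQ hNT hCS hBA hPRO Pool.Agent.H35.VT.pf_PERM Pool.Agent.H55.VT.INV.pf_INV

end Pool.Agent.H46.VT
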